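import Pool.Agent.W744.BU.Stm

/-!
Project BU, part PP.
-/

set_option autoImplicit false

open Set Filter Topology

namespace Pool.Agent.W765.BU.PP

open Pool.Agent.W744.BU

section diag

open Classical in
/-- diagonal projections -/
theorem exists_proj (P : Type) (S : Set P) (h1 : S_ENT) :
    ∃ Q : Op P, Q * Q = Q ∧ star Q = Q ∧
      ∀ p q, entry Q p q = if p = q then (if p ∈ S then 1 else 0) else 0 := by
  obtain ⟨hext, -, -, -, hone⟩ := h1
  let K : Submodule ℂ (L2 P) :=
    { carrier := {v | ∀ p, p ∉ S → (v : P → ℂ) p = 0}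
      add_mem' := by
        intro v w hv hw p hp
        have : ((v + w : L2 P) : P → ℂ) p = (v : P → ℂ) p + (w : P → ℂ) p := rfl
        rw [this, hv p hp, hw p hp, add_zero]
      zero_mem' := by
        intro p _
        rfl
      smul_mem' := by
        intro c v hv p hp
        have : ((c • v : L2 P) : P → ℂ) p = c * (v : P → ℂ) p := rfl
        rw [this, hv p hp, mul_zero] }
  have hmem : ∀ v : L2 P, v ∈ K ↔ ∀ p, p ∉ S → (v : P → ℂ) p = 0 := fun v => Iff.rfl
  have hinner : ∀ (p : P) (v : L2 P), inner ℂ (e p) v = (v : P → ℂ) p := by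
    intro p v
    unfold e
    rw [lp.inner_single_left]
    simp
  have hcl : IsClosed (K : Set (L2 P)) := by
    have : (K : Set (L2 P)) = ⋂ p : P, ⋂ _ : p ∉ S, {v : L2 P | inner ℂ (e p) v = 0} := by
      ext v
      simp only [SetLike.mem_coe, hmem, mem_iInter, mem_ofPred_eq, hinner]
    rw [this]
    refine isClosed_iInter fun p => isClosed_iInter fun _ => ?_
    exact isClosed_eq (by fun_prop) continuous_const
  have : CompleteSpace K := hcl.completeSpace_coe
  refine ⟨K.starProjection, ?_, ?_, ?_⟩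
  · exact (Submodule.isIdempotentElem_starProjection K)
  · exact (isSelfAdjoint_starProjection K)
  · intro p q
    have hq1 : q ∈ S → K.starProjection (e q) = e q := by
      intro hq
      rw [Submodule.starProjection_eq_self_iff, hmem]
      intro p hp
      have hpq : p ≠ q := fun h => hp (h ▸ hq)
      unfold e
      simp [lp.single_apply, hpq]
    have hq2 : q ∉ S → K.starProjection (e q) = 0 := by
      intro hq
      rw [Submodule.starProjection_apply_eq_zero_iff, Submodule.mem_orthogonal']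
      intro v hv
      rw [hinner]
      exact (hmem v).1 hv q hq
    unfold entry
    have he : ((e q : L2 P) : P → ℂ) p = if p = q then 1 else 0 := by
      unfold e
      by_cases hpq : p = q
      · subst hpq
        simp
      · simp [lp.single_apply, hpq]
    by_cases hq : q ∈ S
    · rw [hq1 hq, he]
      by_cases hpq : p = q
      · subst hpq
        simp [hq]
      · simp [hpq]
    · rw [hq2 hq]
      by_cases hpq : p = q
      · subst hpq
        simp [hq]
      · simp [hpq]

theorem entry_diag_mul {P : Type} (h1 : S_ENT) {Q : Op P} {d : P → ℂ}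
    (hQ : (∀ p, entry Q p p = d p) ∧ ∀ p q, p ≠ q → entry Q p q = 0) (c : Op P) (p q : P) :
    entry (Q * c) p q = d p * entry c p q := by
  obtain ⟨-, -, hmul, -, -⟩ := h1
  refine (hmul P Q c p q).unique ?_
  have h : HasSum (fun k => entry Q p k * entry c k q) (entry Q p p * entry c p q) := by
    refine hasSum_single p ?_
    intro k hk
    rw [hQ.2 _ _ (Ne.symm hk), zero_mul]
  rwa [hQ.1 p] at h

theorem entry_mul_diag {P : Type} (h1 : S_ENT) {Q : Op P} {d : P → ℂ}
    (hQ : (∀ p, entry Q p p = d p) ∧ ∀ p q, p ≠ q → entry Q p q = 0) (c : Op P) (p q : P) :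
    entry (c * Q) p q = entry c p q * d q := by
  obtain ⟨-, -, hmul, -, -⟩ := h1
  refine (hmul P c Q p q).unique ?_
  have h : HasSum (fun k => entry c p k * entry Q k q) (entry c p q * entry Q q q) := by
    refine hasSum_single q ?_
    intro k hk
    rw [hQ.2 _ _ hk, mul_zero]
  rwa [hQ.1 q] at h

end diag

theorem main (h1 : S_ENT) (h2 : S_TENS) (h3 : S_LAM) (h4 : S_TAU) : S_PP := by
  classical
  intro D R hR
  obtain ⟨ht1, ht2, ht3, ht4, -⟩ := id h2
  obtain ⟨hl1, hl2, hl3, hl4, hl5, -⟩ := h3 D.G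
  have hU : ∀ g, UU R g ∈ unitary (Op (R.I × D.G)) := by
    intro g
    have hx := Unitary.mem_iff.1 (hR g)
    have hl := Unitary.mem_iff.1 (hl5 g)
    rw [Unitary.mem_iff]
    unfold UU
    rw [← ht3, ← ht2, ← ht2, hx.1, hx.2, hl.1, hl.2, ht4]
    exact ⟨rfl, rfl⟩
  refine ⟨hU, ?_⟩
  intro B _ f u hf hfu
  have hinj : ∀ x y : B, f x = f y → x = y := by
    intro x y hxy
    have h : ‖f (x - y)‖ = ‖x - y‖ := hf _
    rw [map_sub, hxy, sub_self, norm_zero] at h
    exact sub_eq_zero.1 (norm_eq_zero.1 h.symm)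
  have hu : ∀ g, u g ∈ unitary B := by
    intro g
    have h := Unitary.mem_iff.1 (hU g)
    rw [Unitary.mem_iff]
    constructor
    · apply hinj
      rw [map_mul, map_star, hfu, map_one]
      exact h.1
    · apply hinj
      rw [map_mul, map_star, hfu, map_one]
      exact h.2
  refine ⟨hu, ?_⟩
  obtain ⟨Q, hQQ, hQs, hQe⟩ := exists_proj (R.I × D.G) {p | p.2 ∈ D.E} h1
  set d : R.I × D.G → ℂ := fun p => if p ∈ {p : R.I × D.G | p.2 ∈ D.E} then 1 else 0 with hd
  have hQ1 : (∀ p, entry Q p p = d p) ∧ ∀ p q, p ≠ q → entry Q p q = 0 := by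
    constructor
    · intro p
      rw [hQe, if_pos rfl]
    · intro p q hpq
      rw [hQe, if_neg hpq]
  have hQ2 : (∀ p, entry (1 - Q) p p = 1 - d p) ∧ ∀ p q, p ≠ q → entry (1 - Q) p q = 0 := by
    have h : ∀ p q, entry (1 - Q) p q = entry (1 : Op (R.I × D.G)) p q - entry Q p q :=
      fun _ _ => rfl
    constructor
    · intro p
      rw [h, hQ1.1, h1.2.2.2.2, if_pos rfl]
    · intro p q hpq
      rw [h, hQ1.2 p q hpq, h1.2.2.2.2, if_neg hpq, sub_zero]
  have hlp : ∀ (g : D.G) (n : ℕ), (lam g) ^ n = lam (g ^ n) := by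
    intro g n
    induction n with
    | zero => rw [pow_zero, pow_zero, hl2]
    | succ n ih => rw [pow_succ, pow_succ, ih, hl3]
  have hUp : ∀ (g : D.G) (n : ℕ), (UU R g) ^ n = tens ((R.X g) ^ n) (lam (g ^ n)) := by
    intro g n
    rw [← hlp]
    induction n with
    | zero => rw [pow_zero, pow_zero, pow_zero, ht4]
    | succ n ih =>
      rw [pow_succ, pow_succ, pow_succ, ih, ht2]
      rfl
  refine h4 B (Op (R.I × D.G)) f (u D.a) (u D.b) Q hf (hu _) (hu _) ?_ hQQ hQs ?_
  · intro n hn
    rw [hfu, hUp]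
    apply h1.1
    intro p q
    rw [entry_mul_diag h1 hQ1, entry_diag_mul h1 hQ1]
    have he := (ht1 _ _ ((R.X D.a) ^ n) (lam (D.a ^ n))).1 p.1 p.2 q.1 q.2
    have he' : entry (tens ((R.X D.a) ^ n) (lam (D.a ^ n))) p q =
        entry ((R.X D.a) ^ n) p.1 q.1 * entry (lam (D.a ^ n)) p.2 q.2 := he
    rw [he', hl1]
    have hz : entry (0 : Op (R.I × D.G)) p q = 0 := rfl
    rw [hz]
    by_cases hp : p.2 ∈ D.E
    · by_cases hq : q.2 ∈ D.E
      · have hne : ¬ p.2 = D.a ^ n * q.2 := by
          intro h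
          exact D.hE n hn q.2 hq (h ▸ hp)
        rw [if_neg hne, mul_zero, mul_zero, zero_mul]
      · have : d q = 0 := if_neg hq
        rw [this, mul_zero]
    · have : d p = 0 := if_neg hp
      rw [this, zero_mul, zero_mul]
  · rw [hfu]
    apply h1.1
    intro p q
    rw [entry_mul_diag h1 hQ2, entry_diag_mul h1 hQ2]
    have he' : entry (UU R D.b) p q = entry (R.X D.b) p.1 q.1 * entry (lam D.b) p.2 q.2 :=
      (ht1 _ _ (R.X D.b) (lam D.b)).1 p.1 p.2 q.1 q.2
    rw [he', hl1]
    have hz : entry (0 : Op (R.I × D.G)) p q = 0 := rfl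
    rw [hz]
    by_cases hp : p.2 ∈ D.E
    · have : d p = 1 := if_pos hp
      rw [this, sub_self, zero_mul, zero_mul]
    · by_cases hq : q.2 ∈ D.E
      · have : d q = 1 := if_pos hq
        rw [this, sub_self, mul_zero]
      · have hne : ¬ p.2 = D.b * q.2 := by
          intro h
          exact hp (h ▸ D.hE' q.2 hq)
        rw [if_neg hne, mul_zero, mul_zero, zero_mul]

end Pool.Agent.W765.BU.PP
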